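import Pool.Agent.Y570.CR.CM.Coding
import Pool.Agent.Y570.CR.SB.Conn

/-!
# Diffeomorphism of `C^r` manifolds is classifiable by countable structures, for `1 ≤ r ≤ ∞`

Q2 of MP_7d75c8_lc asks this for connected `C^∞` manifolds. Here it is shown for manifolds of every
class of differentiability `r = 1, 2, …, ∞`, connected or not, with one countable first-order
language for all `r` and all dimensions.

The proof follows the starting library `Pool/Agent/TH227` (the case `r = ∞`), which is rewritten here
for all `r`: the approximation arguments use the first derivative only, and a space of `C^r` maps is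
coded by the derivatives of order at most `r` at a dense sequence of points.
-/

set_option autoImplicit false

open Set Filter Topology
open scoped ContDiff Manifold

namespace Pool.Agent.Results.MP_7d75c8_lc.CrClassifiable

open Pool.Agent.Y570.CR.CM

/-- The space of codes of `C^r` `n`-manifolds: a code is a sequence of open subsets `V i i` of `ℝⁿ`
together with gluing maps `φ i j` of class `C^r` from the open subset `V i j` of `V i i` onto the open
subset `V j i` of `V j j`, satisfying the cocycle conditions and the Hausdorff condition. -/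
def MCode (r : ℕ∞) (hr : 1 ≤ r) (n : ℕ) : Type :=
  @Code (EuclideanSpace ℝ (Fin n)) _ _ ⟨r, hr⟩

/-- The coded manifold: it is glued from the open sets `V i i` by the maps `φ i j`. -/
abbrev Coded {r : ℕ∞} {hr : 1 ≤ r} {n : ℕ} (c : MCode r hr n) : Type :=
  @Code.Pts (EuclideanSpace ℝ (Fin n)) _ _ ⟨r, hr⟩ c

/-- The codes of connected manifolds. -/
def ConnCode (r : ℕ∞) (hr : 1 ≤ r) (n : ℕ) : Type :=
  {c : MCode r hr n // ConnectedSpace (Coded c)}

/-- The Borel structure of the space of codes: it is generated by the conditions `S ⊆ V i j`, for `S`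
compact, and `φ i j x ∈ B`, for `x` a point and `B` a Borel set. -/
noncomputable instance codeBorel (r : ℕ∞) (hr : 1 ≤ r) (n : ℕ) : MeasurableSpace (MCode r hr n) :=
  @measC (EuclideanSpace ℝ (Fin n)) _ _ ⟨r, hr⟩

/-- The Borel structure of the space of codes of connected manifolds. -/
noncomputable instance connBorel (r : ℕ∞) (hr : 1 ≤ r) (n : ℕ) :
    MeasurableSpace (ConnCode r hr n) :=
  MeasurableSpace.comap Subtype.val (codeBorel r hr n)

/-- The coded manifolds are diffeomorphic, by a diffeomorphism of class `C^r`. -/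
def Diffeomorphic {r : ℕ∞} {hr : 1 ≤ r} {n : ℕ} (c c' : MCode r hr n) : Prop :=
  Nonempty (Diffeomorph 𝓘(ℝ, EuclideanSpace ℝ (Fin n)) 𝓘(ℝ, EuclideanSpace ℝ (Fin n))
    (Coded c) (Coded c') (r : WithTop ℕ∞))

/-- The coded space is a Hausdorff second countable `C^r` `n`-manifold. -/
def GluesToManifold {r : ℕ∞} {hr : 1 ≤ r} {n : ℕ} (c : MCode r hr n) : Prop :=
  T2Space (Coded c) ∧ SecondCountableTopology (Coded c) ∧
    IsManifold 𝓘(ℝ, EuclideanSpace ℝ (Fin n)) (r : WithTop ℕ∞) (Coded c)

/-- The `C^r` manifold `N` is diffeomorphic to the one coded by `c`. -/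
def CodedBy {r : ℕ∞} {hr : 1 ≤ r} {n : ℕ} (N : Type) [TopologicalSpace N]
    [ChartedSpace (EuclideanSpace ℝ (Fin n)) N] (c : MCode r hr n) : Prop :=
  Nonempty (Diffeomorph 𝓘(ℝ, EuclideanSpace ℝ (Fin n)) 𝓘(ℝ, EuclideanSpace ℝ (Fin n))
    N (Coded c) (r : WithTop ℕ∞))

/-- There is a countable first-order language `L` such that for every class of differentiability
`r = 1, 2, …, ∞` and every dimension `n`: the space of codes of `C^r` `n`-manifolds and the space of
codes of connected `C^r` `n`-manifolds are standard Borel spaces; every code glues to a Hausdorff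
second countable `C^r` `n`-manifold; every (connected) Hausdorff second countable `C^r` `n`-manifold is
`C^r`-diffeomorphic to one with a code (of a connected manifold); and the relation of
`C^r`-diffeomorphism, both on the space of codes of all `C^r` `n`-manifolds and on the space of codes of
connected ones, is classified by the countable `L`-structures, in particular it is classifiable by
countable structures. -/
theorem result :
    ∃ L : FirstOrder.Language.{0, 0}, Countable L.Symbols ∧
      ∀ (r : ℕ∞) (hr : 1 ≤ r) (n : ℕ),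
        StandardBorelSpace (MCode r hr n) ∧ StandardBorelSpace (ConnCode r hr n) ∧
        (∀ c : MCode r hr n, GluesToManifold c) ∧
        (∀ (N : Type) [TopologicalSpace N] [ChartedSpace (EuclideanSpace ℝ (Fin n)) N]
          [IsManifold 𝓘(ℝ, EuclideanSpace ℝ (Fin n)) (r : WithTop ℕ∞) N] [T2Space N]
          [SecondCountableTopology N], (∃ c : MCode r hr n, CodedBy N c) ∧
            (ConnectedSpace N → ∃ c : ConnCode r hr n, CodedBy N c.1)) ∧
        ClassifiedBy L (Diffeomorphic : MCode r hr n → MCode r hr n → Prop) ∧
        ClassifiedBy L (fun c c' : ConnCode r hr n => Diffeomorphic c.1 c'.1) ∧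
        ClassifiableByCountableStructures (Diffeomorphic : MCode r hr n → MCode r hr n → Prop) ∧
        ClassifiableByCountableStructures
          (fun c c' : ConnCode r hr n => Diffeomorphic c.1 c'.1) := by
  refine ⟨LL, inferInstance, fun r hr n => ?_⟩
  letI R : Rg := ⟨r, hr⟩
  have h1 : ClassifiedBy LL (Diffeomorphic : MCode r hr n → MCode r hr n → Prop) :=
    classified_all (E := EuclideanSpace ℝ (Fin n))
  have h2 : ClassifiedBy LL (fun c c' : ConnCode r hr n => Diffeomorphic c.1 c'.1) :=
    h1.subtype (fun c => ConnectedSpace (Coded c))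
  refine ⟨Pool.Agent.Y570.CR.SB.sb_code (E := EuclideanSpace ℝ (Fin n)),
    Pool.Agent.Y570.CR.SB.sb_conn (E := EuclideanSpace ℝ (Fin n)), fun c => ?_, ?_, h1, h2,
    ⟨LL, inferInstance, h1⟩, ⟨LL, inferInstance, h2⟩⟩
  · refine ⟨?_, ?_, ?_⟩
    · exact (inferInstance : T2Space (Code.Pts (E := EuclideanSpace ℝ (Fin n)) c))
    · exact (inferInstance : SecondCountableTopology
        (Code.Pts (E := EuclideanSpace ℝ (Fin n)) c))
    · exact Code.manifoldPts (E := EuclideanSpace ℝ (Fin n)) c
  · intro N _ _ hN _ _
    haveI : IsManifold 𝓘(ℝ, EuclideanSpace ℝ (Fin n)) rg N := hN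
    obtain ⟨c, ⟨f⟩⟩ := exists_code (E := EuclideanSpace ℝ (Fin n)) (N := N)
    refine ⟨⟨c, ⟨f⟩⟩, fun hconn => ?_⟩
    have hc : ConnectedSpace c.Pts :=
      f.toEquiv.surjective.connectedSpace f.contMDiff_toFun.continuous
    exact ⟨⟨c, hc⟩, ⟨f⟩⟩

end Pool.Agent.Results.MP_7d75c8_lc.CrClassifiable
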